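import Pool.Agent.TH455.TFA.BF

set_option autoImplicit false

/-! # Unions of three cycles, two of them 2-factors

A finite graph, loops and parallel edges allowed, has vertex set `V` and edge set `E`; the ends of
the edge `e` are `src e` and `dst e`. -/

namespace Pool.Agent.Results.MP_c95763_co.TreewidthFour

open Finset

/-- the simple graph in which two distinct vertices are adjacent if an edge in `F` joins them -/
def under {V E : Type} (src dst : E → V) (F : Set E) : SimpleGraph V where
  Adj x y := x ≠ y ∧ ∃ e ∈ F, (src e = x ∧ dst e = y) ∨ (src e = y ∧ dst e = x)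
  symm := ⟨fun _ _ h => ⟨h.1.symm, h.2.imp fun _ he => ⟨he.1, he.2.symm⟩⟩⟩
  loopless := ⟨fun _ h => h.1 rfl⟩

/-- the edge `e` is a bridge: its ends are not connected by the other edges -/
def IsBridge {V E : Type} (src dst : E → V) (e : E) : Prop :=
  ¬ (under src dst {e' | e' ≠ e}).Reachable (src e) (dst e)

/-- tree decomposition of the graph, with bags `bag i` for the nodes `i` of the tree `T` -/
def IsTreeDecomposition {V E ι : Type} (src dst : E → V) (T : SimpleGraph ι)
    (bag : ι → Finset V) : Prop :=
  T.IsTree ∧ (∀ v, ∃ i, v ∈ bag i) ∧ (∀ e, ∃ i, src e ∈ bag i ∧ dst e ∈ bag i) ∧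
    ∀ (i j : ι) (p : T.Walk i j), p.IsPath → ∀ k ∈ p.support, ∀ v, v ∈ bag i → v ∈ bag j →
      v ∈ bag k

/-- the treewidth is at most `k` -/
def TreewidthLE {V E : Type} (src dst : E → V) (k : ℕ) : Prop :=
  ∃ (ι : Type) (_ : Fintype ι) (T : SimpleGraph ι) (bag : ι → Finset V),
    IsTreeDecomposition src dst T bag ∧ ∀ i, (bag i).card ≤ k + 1

/-- every vertex has degree three, where a loop counts twice -/
def IsCubic {V E : Type} [DecidableEq V] [Fintype E] (src dst : E → V) : Prop :=
  ∀ v, ∑ e, ((if src e = v then 1 else 0) + (if dst e = v then 1 else 0)) = 3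

/-- the set of edges `C` is a cycle: all degrees are even, where a loop counts twice -/
def IsCycle {V E : Type} [DecidableEq V] (src dst : E → V) (C : Finset E) : Prop :=
  ∀ v, Even (∑ e ∈ C, ((if src e = v then 1 else 0) + (if dst e = v then 1 else 0)))

/-- the set of edges `C` is a 2-factor: every vertex has degree two in it -/
def IsTwoFactor {V E : Type} [DecidableEq V] (src dst : E → V) (C : Finset E) : Prop :=
  ∀ v, ∑ e ∈ C, ((if src e = v then 1 else 0) + (if dst e = v then 1 else 0)) = 2

/-- **Theorem.** A bridgeless cubic graph of treewidth at most four is the union of three of its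
cycles, two of which are 2-factors. -/
theorem result (V E : Type) [Fintype V] [DecidableEq V] [Fintype E] [DecidableEq E]
    (src dst : E → V) (hc : IsCubic src dst) (hB : ∀ e, ¬ IsBridge src dst e)
    (hT : TreewidthLE src dst 4) :
    ∃ C₁ C₂ C₃ : Finset E, IsTwoFactor src dst C₁ ∧ IsTwoFactor src dst C₂ ∧
      IsCycle src dst C₃ ∧ C₁ ∪ C₂ ∪ C₃ = univ := by
  obtain ⟨C, hC, h4⟩ := TH455.TFA.six_tw hB hT
  refine ⟨C 0, C 1, C 2, fun v => TH455.TFA.factor hC h4 v (hc v) 0,
    fun v => TH455.TFA.factor hC h4 v (hc v) 1, hC 2, ?_⟩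
  ext e
  simp only [mem_union, mem_univ, iff_true]
  rcases TH455.TFA.three_cover h4 (i := 0) (j := 1) (k := 2) (by decide) (by decide) (by decide) e
    with h | h | h
  · exact Or.inl (Or.inl h)
  · exact Or.inl (Or.inr h)
  · exact Or.inr h

end Pool.Agent.Results.MP_c95763_co.TreewidthFour
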